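import Pool.Agent.V11328.DG.Game

/-!
# The biased Maker-Breaker domination game on dense random graphs

For all `b ≥ 1` and all constant `p ∈ (0,1)` the statement of Q1 fails: for infinitely many `n`, with
probability at least `1/36`, both `γ_MB(G, b)` and `γ'_MB(G, b)` are larger than `⌈γ(G)/b⌉`, for
`G ∼ G(n,p)`. The reason: for every large multiple `r` of `b` there is an `n` such that with
probability at least `1/36` there is exactly one dominating set of size `r`; Staller claims one of its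
vertices.

The definitions `Dom`, `domNumber`, `Wins`, `gammaFirst`, `gammaSecond` are in
`Pool.Agent.V11328.DG.Mom` and `Pool.Agent.V11328.DG.Game`; `G(V, p)` is the binomial random graph of
Mathlib.
-/

set_option autoImplicit false

open MeasureTheory Filter Topology unitInterval Pool.Agent.V11328.DG
open scoped SimpleGraph

namespace Pool.Agent.Results.MP_f1bc00_pr.Disproof

/-- Let `b ≥ 1` and `0 < p < 1`. For infinitely many `n`, with probability at least `1/36`, the random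
graph `G ∼ G(n,p)` satisfies `⌈γ(G)/b⌉ < γ_MB(G, b)` and `⌈γ(G)/b⌉ < γ'_MB(G, b)`. So the probability
that `γ_MB(G, b) = γ'_MB(G, b) = ⌈γ(G)/b⌉` does not tend to `1`. -/
theorem result (b : ℕ) (hb : 1 ≤ b) (p : I) (hp0 : 0 < (p : ℝ)) (hp1 : (p : ℝ) < 1) :
    (∃ᶠ n : ℕ in atTop, 1 / 36 ≤ (G(Fin n, p)).real
      {G | ((⌈(domNumber G : ℝ) / b⌉₊ : ℕ) : ℕ∞) < gammaFirst G b ∧
        ((⌈(domNumber G : ℝ) / b⌉₊ : ℕ) : ℕ∞) < gammaSecond G b}) ∧
    ¬ Tendsto (fun n : ℕ => (G(Fin n, p)).real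
      {G | gammaFirst G b = gammaSecond G b ∧
        gammaSecond G b = ((⌈(domNumber G : ℝ) / b⌉₊ : ℕ) : ℕ∞)}) atTop (𝓝 1) := by
  have hq0 : 0 < 1 - (p : ℝ) := by linarith
  have hq1 : 1 - (p : ℝ) < 1 := by linarith
  have hfreq : ∃ᶠ n : ℕ in atTop, 1 / 36 ≤ (G(Fin n, p)).real
      {G | ((⌈(domNumber G : ℝ) / b⌉₊ : ℕ) : ℕ∞) < gammaFirst G b ∧
        ((⌈(domNumber G : ℝ) / b⌉₊ : ℕ) : ℕ∞) < gammaSecond G b} := by
    rw [frequently_atTop]
    intro N
    obtain ⟨R, hR⟩ := eventually_atTop.1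
      ((unique_dom p hp0 hp1).and (ev_conditions hq0 hq1 1 one_ne_zero))
    set t := max 2 (max R N) with ht
    have ht2 : 2 ≤ t := le_max_left _ _
    have htR : R ≤ t := (le_max_left _ _).trans (le_max_right _ _)
    have htN : N ≤ t := (le_max_right _ _).trans (le_max_right _ _)
    have hbt : t ≤ b * t := Nat.le_mul_of_pos_left t (by omega)
    obtain ⟨⟨n, hn1, hn2⟩, f1, f2, -⟩ := hR (b * t) (htR.trans hbt)
    have hrn : b * t < n := by
      have hx : 0 < (1 - (p : ℝ)) ^ (b * t) := pow_pos hq0 _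
      have hr5 : (5 : ℝ) ≤ ((b * t : ℕ) : ℝ) := by exact_mod_cast f1
      have h1 : 4 * (((b * t : ℕ) : ℝ) * (1 - (p : ℝ)) ^ (b * t)) ≤
          2 * ((1 - (p : ℝ)) ^ (b * t) * n) := by linarith
      have h2 : (((b * t : ℕ) : ℝ)) < n := by nlinarith
      exact_mod_cast h2
    refine ⟨n, by omega, hn2.trans ?_⟩
    refine measureReal_mono (fun G hG => ?_)
    exact game hb ht2 rfl hG (by rw [Fintype.card_fin]; exact hrn)
  refine ⟨hfreq, fun hlim => ?_⟩
  have h1 := hlim.eventually_const_lt (show (35 / 36 : ℝ) < 1 by norm_num)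
  obtain ⟨n, h2, h3⟩ := (hfreq.and_eventually h1).exists
  set A := {G : SimpleGraph (Fin n) | ((⌈(domNumber G : ℝ) / b⌉₊ : ℕ) : ℕ∞) < gammaFirst G b ∧
        ((⌈(domNumber G : ℝ) / b⌉₊ : ℕ) : ℕ∞) < gammaSecond G b} with hA
  set B := {G : SimpleGraph (Fin n) | gammaFirst G b = gammaSecond G b ∧
        gammaSecond G b = ((⌈(domNumber G : ℝ) / b⌉₊ : ℕ) : ℕ∞)} with hB
  have hdis : Disjoint A B := by
    rw [Set.disjoint_left]
    rintro G ⟨-, h4⟩ ⟨-, h5⟩
    exact h4.ne' h5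
  have hmeas : MeasurableSet B := Set.Finite.measurableSet (Set.toFinite _)
  have h4 := measureReal_union (μ := G(Fin n, p)) hdis hmeas
  have h5 : (G(Fin n, p)).real (A ∪ B) ≤ 1 := measureReal_le_one
  linarith

end Pool.Agent.Results.MP_f1bc00_pr.Disproof
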